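import Pool.Agent.Q127.NC.Metric
import Pool.Agent.Q127.NC.Gen

/-!
# Near-coincidences `|a ^ n - c b ^ m| ≤ x` for most multipliers `c`

The problem: `a = π`, `b = e`, `c = 1`. The main term is `(log x) ^ 2 / (log a log b)`. It gives the
number of all pairs, with the error `O (log x)`, for every multiplier `c` outside a set of Hausdorff
dimension zero; for generic `c` there are infinitely many pairs for every `x > 0` when
`log a / log b` is irrational.
-/

set_option autoImplicit false

namespace Pool.Agent.Results.MP_606be1_nt.AlmostAllMultipliers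

open Real Filter MeasureTheory
open Pool.Agent.Q127.NC

/-- the pairs `(n, m)` with `|a ^ n - c b ^ m| ≤ x` -/
def pairs (a b c x : ℝ) : Set (ℕ × ℕ) := {p | |a ^ p.1 - c * b ^ p.2| ≤ x}

theorem result (a b : ℝ) (ha : 1 < a) (hb : 1 < b) :
    (∃ E : Set ℝ, dimH E = 0 ∧ ∀ c : ℝ, 0 < c → c ∉ E →
      ∃ C : ℝ, ∀ x : ℝ, 2 ≤ x → (pairs a b c x).Finite ∧
        |((pairs a b c x).ncard : ℝ) - log x ^ 2 / (log a * log b)| ≤ C * log x) ∧
    (Irrational (log a / log b) →
      ∀ᶠ c in residual ℝ, 0 < c → ∀ x : ℝ, 0 < x → (pairs a b c x).Infinite) :=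
  ⟨metric ha hb, gen ha hb⟩

end Pool.Agent.Results.MP_606be1_nt.AlmostAllMultipliers
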