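import Pool.Agent.Q93.NP.Count

/-!
# Near-coincidences `|A ^ n - e ^ m| ≤ x` for the bases `A = (1 + 1 / q) ^ r a`

The problem: `a = π`, `r = 0`. The main term is `(log x) ^ 2 / log A`.

Fix `q ≥ 1`. For every `a > 0` the asymptotic with `n` at most an `h`-fold iterated exponential of `R`
can fail for at most `h` of the rationals `r` of small height; `R₀` does not depend on `a`. For `a = π`,
`h = 1` and `R = ε (log x) ^ 2`: for all `(1 + 1 / q) ^ r π` but at most one, the count with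
`n < exp (ε (log x) ^ 2 / 100000)` is `(log x) ^ 2 / log A` up to `(ε + o(1)) (log x) ^ 2`.
-/

set_option autoImplicit false

namespace Pool.Agent.Results.MP_606be1_nt.FewExceptionalBases

open Real

/-- the base `(1 + 1 / q) ^ r a` -/
noncomputable def base (q : ℕ) (a : ℝ) (r : ℚ) : ℝ := (1 + 1 / (q : ℝ)) ^ (r : ℝ) * a

/-- the pairs `(n, m)` with `n ≤ T` and `|A ^ n - e ^ m| ≤ x` -/
def pairs (A x T : ℝ) : Set (ℕ × ℕ) := {p | (p.1 : ℝ) ≤ T ∧ |A ^ p.1 - exp 1 ^ p.2| ≤ x}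

/-- iterated exponentials: `R`, `exp (R / 100000)`, `exp (exp (R / 100000) / 100000)`, … -/
noncomputable def tower (R : ℝ) : ℕ → ℝ
  | 0 => R
  | h + 1 => exp (tower R h / 100000)

/-- the rationals `r` of small height for which the asymptotic for the base `(1 + 1 / q) ^ r a` fails
for some bound `T < tower R h` on `n` -/
def exceptional (q : ℕ) (a x R : ℝ) (h : ℕ) : Set ℚ :=
  {r | |(r.num : ℝ)| ≤ exp (R / 100000) ∧ (r.den : ℝ) ≤ exp (R / 100000) ∧ 2 ≤ base q a r ∧
    ∃ T : ℝ, 2 * log x ≤ T ∧ T < tower R h ∧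
      40 * log x + R < |((pairs (base q a r) x T).ncard : ℝ) - log x ^ 2 / log (base q a r)|}

theorem tower_eq (R : ℝ) (h : ℕ) : tower R h = Pool.Agent.Q93.NP.tow (1 / 100000) R h := by
  induction h with
  | zero => rfl
  | succ h ih =>
    rw [tower, Pool.Agent.Q93.NP.tow, ih]
    congr 1
    ring

theorem result : ∀ q : ℕ, 1 ≤ q → ∃ R₀ : ℝ, ∀ a x R : ℝ, 0 < a → 5 ≤ x → R₀ ≤ R → ∀ h : ℕ,
    (exceptional q a x R h).encard ≤ h := by
  intro q hq
  obtain ⟨R₀, hR₀⟩ := Pool.Agent.Q93.NP.few q hq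
  refine ⟨R₀, fun a x R ha hx hR h => ?_⟩
  have h1 := hR₀ a ha x R hx hR h
  unfold exceptional
  rw [tower_eq]
  exact h1

end Pool.Agent.Results.MP_606be1_nt.FewExceptionalBases
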