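import Pool.Agent.Q127.NC.Trunc
import Pool.Agent.Q127.NC.Sharp

/-!
# Near-coincidences `|a ^ n - c b ^ m| ≤ x` with `n` at most a constant times `(log x) ^ 2`

The problem: `a = π`, `b = e`, `c = 1`, with no condition on `n`. The main term is
`(log x) ^ 2 / (log a log b)`.

* With the condition `n ≤ K (log x) ^ 2` the asymptotic holds if and only if `log a / log b` is
  irrational (for `a = π`, `b = e`: `log π` is irrational), for every `K > 0`; for a multiplier `c` it
  holds if and only if `a ^ n = c b ^ m` has at most one solution. In the irrational case it is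
  uniform in `c`.
* No larger range: if `Y x / (log x) ^ 2 → ∞`, then for generic `a` (and every `b`) the upper limit of the
  count with `n ≤ Y x` over `(log x) ^ 2` is infinite.
-/

set_option autoImplicit false

namespace Pool.Agent.Results.MP_606be1_nt.SquareLogWindow

open Real Filter Asymptotics MeasureTheory
open Pool.Agent.Q127.NC

/-- the pairs `(n, m)` with `n ≤ Y` and `|a ^ n - c b ^ m| ≤ x` -/
def pairsUpTo (a b c x Y : ℝ) : Set (ℕ × ℕ) :=
  {p | (p.1 : ℝ) ≤ Y ∧ |a ^ p.1 - c * b ^ p.2| ≤ x}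

theorem irr_iff {a b : ℝ} (ha : 1 < a) (hb : 1 < b) :
    (∀ n m n' m' : ℕ, a ^ n = 1 * b ^ m → a ^ n' = 1 * b ^ m' → n = n') ↔
      Irrational (log a / log b) := by
  have hA : 0 < log a := log_pos ha
  have hB : 0 < log b := log_pos hb
  constructor
  · intro h hrat
    obtain ⟨r, hr⟩ := hrat
    have hθ : 0 < log a / log b := by positivity
    have hr0 : 0 < r := by
      rw [← hr] at hθ
      exact_mod_cast hθ
    have hnum : 0 < r.num := Rat.num_pos.2 hr0
    have hq := r.den_pos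
    have hq0 : (0 : ℝ) < r.den := by exact_mod_cast hq
    have hpnum : ((r.num.toNat : ℕ) : ℝ) = (r.num : ℝ) := by
      have : ((r.num.toNat : ℕ) : ℤ) = r.num := Int.toNat_of_nonneg hnum.le
      exact_mod_cast this
    have h1 : a ^ r.den = 1 * b ^ r.num.toNat := by
      rw [one_mul]
      apply Real.log_injOn_pos (Set.mem_Ioi.2 (by positivity)) (Set.mem_Ioi.2 (by positivity))
      rw [Real.log_pow, Real.log_pow, hpnum]
      rw [Rat.cast_def, div_eq_div_iff hq0.ne' hB.ne'] at hr
      linarith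
    have h2 := h 0 0 _ _ (by simp) h1
    omega
  · intro hirr
    have key : ∀ n m n' m' : ℕ, a ^ n = 1 * b ^ m → a ^ n' = 1 * b ^ m' → ¬ n < n' := by
      intro n m n' m' h1 h2 hlt
      rw [one_mul] at h1 h2
      have h3 := congrArg log h1
      have h4 := congrArg log h2
      rw [Real.log_pow, Real.log_pow] at h3 h4
      apply hirr
      refine ⟨((m' : ℚ) - m) / ((n' : ℚ) - n), ?_⟩
      have hd : (0 : ℝ) < (n' : ℝ) - n := by
        rw [sub_pos]
        exact_mod_cast hlt
      push_cast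
      rw [div_eq_div_iff hd.ne' hB.ne']
      linarith
    intro n m n' m' h1 h2
    exact le_antisymm (not_lt.1 (key n' m' n m h2 h1)) (not_lt.1 (key n m n' m' h1 h2))

theorem result :
    (∀ a b : ℝ, 1 < a → 1 < b →
      -- the range `n ≤ K (log x) ^ 2`
      (∀ K : ℝ, 0 < K →
        (((fun x : ℝ => ((pairsUpTo a b 1 x (K * log x ^ 2)).ncard : ℝ)) ~[atTop]
          (fun x : ℝ => log x ^ 2 / (log a * log b))) ↔ Irrational (log a / log b))) ∧
      (∀ c K : ℝ, 0 < c → 0 < K →
        (((fun x : ℝ => ((pairsUpTo a b c x (K * log x ^ 2)).ncard : ℝ)) ~[atTop]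
          (fun x : ℝ => log x ^ 2 / (log a * log b))) ↔
          ∀ n m n' m' : ℕ, a ^ n = c * b ^ m → a ^ n' = c * b ^ m' → n = n')) ∧
      -- uniformity
      (Irrational (log a / log b) → ∀ K G ε : ℝ, 0 < K → 0 < ε →
        ∃ x₀ : ℝ, ∀ x : ℝ, x₀ ≤ x → ∀ c : ℝ, 0 < c → |log c| ≤ G →
          |((pairsUpTo a b c x (K * log x ^ 2)).ncard : ℝ) / log x ^ 2 -
            1 / (log a * log b)| ≤ ε)) ∧
    -- no larger range
    (∀ b : ℝ, 1 < b → ∀ Y : ℝ → ℝ, Tendsto (fun x : ℝ => Y x / log x ^ 2) atTop atTop →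
      ∀ᶠ a in residual ℝ, 1 < a → ∀ M : ℝ, ∃ᶠ x in atTop,
        M * log x ^ 2 ≤ ((pairsUpTo a b 1 x (Y x)).ncard : ℝ)) := by
  refine ⟨fun a b ha hb => ⟨fun K hK => ?_, fun c K hc hK => trunc_iff ha hb hc hK,
    fun hirr K G ε hK hε => ?_⟩, fun b hb Y hY => sharp hb Y hY⟩
  · exact (trunc_iff ha hb one_pos hK).trans (irr_iff ha hb)
  · obtain ⟨x₀, -, h⟩ := irr_limit (G := G) ha hb hirr hK hε
    exact ⟨x₀, h⟩

end Pool.Agent.Results.MP_606be1_nt.SquareLogWindow
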