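import Pool.Agent.Q127.NC.Dio

/-!
# Near-coincidences `|a ^ n - c b ^ m| ≤ x` for Diophantine multipliers `c`

The problem: `a = π`, `b = e`, `c = 1`, with no condition on `n`. The main term is
`(log x) ^ 2 / (log a log b)`. If no multiple `j log c` is closer than `κ / j ^ μ` to the integer
multiples of `log b`, the count of the pairs with `n` at most a tower `T = 2 ^ 2 ^ ... ^ 2` of height
`h`, where `T ≥ log x / log a`, is the main term up to `C log x + h`. This covers `b = e` and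
`c = 2 ^ r e ^ s` with rational `r ≠ 0` and `s` (and every `a > 1`, as `a = π`).
-/

set_option autoImplicit false

namespace Pool.Agent.Results.MP_606be1_nt.TowerRange

open Real
open Pool.Agent.Q127.NC

/-- the pairs `(n, m)` with `n ≤ Y` and `|a ^ n - c b ^ m| ≤ x` -/
def pairsUpTo (a b c x Y : ℝ) : Set (ℕ × ℕ) :=
  {p | (p.1 : ℝ) ≤ Y ∧ |a ^ p.1 - c * b ^ p.2| ≤ x}

/-- the tower `2 ^ 2 ^ ... ^ 2` of height `h` -/
def tower : ℕ → ℕ
  | 0 => 1
  | h + 1 => 2 ^ tower h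

theorem tower_eq (h : ℕ) : tower h = tow h := by
  induction h with
  | zero => rfl
  | succ h ih => rw [tower, tow, ih]

theorem result :
    -- Diophantine multipliers
    (∀ a b : ℝ, 1 < a → 1 < b → ∀ (c κ : ℝ) (μ : ℕ), 0 < c → 0 < κ →
      (∀ j : ℕ, 1 ≤ j → ∀ l : ℤ, κ / (j : ℝ) ^ μ ≤ |(j : ℝ) * log c - l * log b|) →
      ∃ C : ℝ, ∀ x : ℝ, 2 ≤ x → ∀ h : ℕ, log x / log a ≤ tower h →
        |((pairsUpTo a b c x (tower h)).ncard : ℝ) - log x ^ 2 / (log a * log b)| ≤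
          C * log x + h) ∧
    -- `π` and `e` with a multiplier
    (∀ r s : ℚ, r ≠ 0 → ∃ C : ℝ, ∀ x : ℝ, 2 ≤ x → ∀ h : ℕ, log x / log π ≤ tower h →
      |((pairsUpTo π (exp 1) (2 ^ (r : ℝ) * exp s) x (tower h)).ncard : ℝ) -
        log x ^ 2 / log π| ≤ C * log x + h) := by
  have hpi : 1 < π := by linarith [Real.pi_gt_three]
  have he : 1 < exp 1 := by
    have := Real.add_one_lt_exp (one_ne_zero (α := ℝ))
    linarith
  refine ⟨fun a b ha hb c κ μ hc hκ hdio => ?_, fun r s hr => ?_⟩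
  · obtain ⟨C, hC⟩ := dio ha hb hc hκ hdio
    refine ⟨C, fun x hx h hY => ?_⟩
    rw [tower_eq] at hY ⊢
    exact hC x hx h hY
  · obtain ⟨κ, hκ, hdio⟩ := dio_two r s hr
    obtain ⟨C, hC⟩ := dio hpi he (c := 2 ^ (r : ℝ) * exp s) (by positivity) hκ hdio
    refine ⟨C, fun x hx h hY => ?_⟩
    rw [tower_eq] at hY ⊢
    have h1 := hC x hx h hY
    rw [Real.log_exp, mul_one] at h1
    exact h1

end Pool.Agent.Results.MP_606be1_nt.TowerRange
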